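import Mathlib

/-!
# MP_dbb1e7_al: a finitely generated central algebra with commutative proper centralizers,
none of which is Noetherian

Let `R = K[x][y]`.  The algebra is the `K`-subalgebra `A` of `M₂(R)` of all matrices
`(c + (p x + q y), q; 0, c)` with `c ∈ K`, `p, q ∈ R`.
It is generated by `(x, 0; 0, 0)` and `(y, 1; 0, 0)`.
-/

open Polynomial

namespace Pool.Agent.Results.MP_dbb1e7_al.NoNoetherianCentralizer

universe u

section

variable (K : Type u) [Field K]

/-- the variable `x` of `K[x][y]` -/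
noncomputable def xx : (K[X])[X] := C X

/-- the variable `y` of `K[x][y]` -/
noncomputable def yy : (K[X])[X] := X

variable {K}

lemma xx_ne_zero : xx K ≠ 0 := by
  unfold xx
  simp

lemma yy_ne_zero : yy K ≠ 0 := by
  unfold yy
  exact X_ne_zero

/-- The linear form `p x + q y`. -/
noncomputable def pi2 (p q : (K[X])[X]) : (K[X])[X] := p * xx K + q * yy K

/-- The matrix `(c + (p x + q y), q; 0, c)`. -/
noncomputable def mat (c : K) (p q : (K[X])[X]) : Matrix (Fin 2) (Fin 2) (K[X])[X] :=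
  !![C (C c) + pi2 p q, q; 0, C (C c)]

lemma mat_mul (c c' : K) (p q p' q' : (K[X])[X]) :
    mat c p q * mat c' p' q' =
      mat (c * c') (C (C c) * p' + C (C c') * p + pi2 p q * p')
        (C (C c) * q' + C (C c') * q + pi2 p q * q') := by
  apply Matrix.ext
  intro i j
  fin_cases i <;> fin_cases j <;>
    simp [mat, pi2, Matrix.mul_apply, Fin.sum_univ_two] <;> ring

lemma mat_add (c c' : K) (p q p' q' : (K[X])[X]) :
    mat c p q + mat c' p' q' = mat (c + c') (p + p') (q + q') := by
  apply Matrix.ext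
  intro i j
  fin_cases i <;> fin_cases j <;> simp [mat, pi2]
  ring

lemma algebraMap_eq_mat (c : K) :
    algebraMap K (Matrix (Fin 2) (Fin 2) (K[X])[X]) c = mat c 0 0 := by
  apply Matrix.ext
  intro i j
  fin_cases i <;> fin_cases j <;>
    simp [mat, pi2, Matrix.algebraMap_matrix_apply, Polynomial.algebraMap_apply]

lemma mat_inj {c c' : K} {p q p' q' : (K[X])[X]} (h : mat c p q = mat c' p' q') :
    c = c' ∧ p = p' ∧ q = q' := by
  have h00 := congrFun (congrFun h 0) 0
  have h01 := congrFun (congrFun h 0) 1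
  have h11 := congrFun (congrFun h 1) 1
  simp [mat, pi2] at h00 h01 h11
  subst h01
  subst h11
  refine ⟨rfl, ?_, rfl⟩
  simpa [xx_ne_zero] using h00

lemma comm_iff (c c' : K) (p q p' q' : (K[X])[X]) :
    mat c p q * mat c' p' q' = mat c' p' q' * mat c p q ↔ p * q' = p' * q := by
  rw [mat_mul, mat_mul]
  constructor
  · intro h
    obtain ⟨-, h1, h2⟩ := mat_inj h
    have h3 : xx K * (p * q' - p' * q) = 0 := by
      simp only [pi2] at h2
      linear_combination h2
    rcases mul_eq_zero.1 h3 with h4 | h4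
    · exact absurd h4 xx_ne_zero
    · exact sub_eq_zero.1 h4
  · intro h
    have h1 : pi2 p q * p' = pi2 p' q' * p := by
      simp only [pi2]
      linear_combination (-(yy K)) * h
    have h2 : pi2 p q * q' = pi2 p' q' * q := by
      simp only [pi2]
      linear_combination (xx K) * h
    rw [h1, h2, mul_comm c c']
    congr 1 <;> ring

variable (K)

/-- The algebra: all matrices `(c + (p x + q y), q; 0, c)` over `K[x][y]`. -/
noncomputable def alg : Subalgebra K (Matrix (Fin 2) (Fin 2) (K[X])[X]) where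
  carrier := {M | ∃ (c : K) (p q : (K[X])[X]), M = mat c p q}
  mul_mem' := by
    rintro _ _ ⟨c, p, q, rfl⟩ ⟨c', p', q', rfl⟩
    exact ⟨_, _, _, mat_mul c c' p q p' q'⟩
  add_mem' := by
    rintro _ _ ⟨c, p, q, rfl⟩ ⟨c', p', q', rfl⟩
    exact ⟨_, _, _, mat_add c c' p q p' q'⟩
  algebraMap_mem' := fun c => ⟨c, 0, 0, algebraMap_eq_mat c⟩

variable {K}

lemma mat_mem (c : K) (p q : (K[X])[X]) : mat c p q ∈ alg K := ⟨c, p, q, rfl⟩

/-- bundled element -/
noncomputable def el (c : K) (p q : (K[X])[X]) : alg K := ⟨mat c p q, mat_mem c p q⟩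

lemma exists_el (a : alg K) : ∃ (c : K) (p q : (K[X])[X]), a = el c p q := by
  obtain ⟨M, c, p, q, rfl⟩ := a
  exact ⟨c, p, q, rfl⟩

lemma el_inj {c c' : K} {p q p' q' : (K[X])[X]} (h : el c p q = el c' p' q') :
    c = c' ∧ p = p' ∧ q = q' := mat_inj (congrArg Subtype.val h)

lemma el_mul (c c' : K) (p q p' q' : (K[X])[X]) :
    el c p q * el c' p' q' =
      el (c * c') (C (C c) * p' + C (C c') * p + pi2 p q * p')
        (C (C c) * q' + C (C c') * q + pi2 p q * q') :=
  Subtype.ext (mat_mul c c' p q p' q')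

lemma el_add (c c' : K) (p q p' q' : (K[X])[X]) :
    el c p q + el c' p' q' = el (c + c') (p + p') (q + q') :=
  Subtype.ext (mat_add c c' p q p' q')

lemma algebraMap_eq_el (c : K) : algebraMap K (alg K) c = el c 0 0 :=
  Subtype.ext (algebraMap_eq_mat c)

lemma el_comm_iff (c c' : K) (p q p' q' : (K[X])[X]) :
    el c p q * el c' p' q' = el c' p' q' * el c p q ↔ p * q' = p' * q := by
  rw [← comm_iff c c' p q p' q']
  constructor
  · intro h
    exact congrArg Subtype.val h
  · intro h
    exact Subtype.ext h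

/-! ### Finite generation -/

lemma mem_adjoin_aux (S : Subalgebra K (alg K)) (h1 : el 0 1 0 ∈ S) (h2 : el 0 0 1 ∈ S)
    (r p q : (K[X])[X]) (h : el 0 p q ∈ S) : el 0 (r * p) (r * q) ∈ S := by
  have hx : ∀ p q : (K[X])[X], el 0 p q ∈ S → el 0 (xx K * p) (xx K * q) ∈ S := by
    intro p q h
    have := S.mul_mem h1 h
    rw [el_mul] at this
    simpa [pi2] using this
  have hy : ∀ p q : (K[X])[X], el 0 p q ∈ S → el 0 (yy K * p) (yy K * q) ∈ S := by
    intro p q h
    have := S.mul_mem h2 h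
    rw [el_mul] at this
    simpa [pi2] using this
  have hc : ∀ (c : K) (p q : (K[X])[X]), el 0 p q ∈ S →
      el 0 (C (C c) * p) (C (C c) * q) ∈ S := by
    intro c p q h
    have h3 : el c 0 0 ∈ S := by
      rw [← algebraMap_eq_el]
      exact S.algebraMap_mem c
    have := S.mul_mem h3 h
    rw [el_mul] at this
    simpa [pi2] using this
  have hadd : ∀ (p q p' q' : (K[X])[X]), el 0 p q ∈ S → el 0 p' q' ∈ S →
      el 0 (p + p') (q + q') ∈ S := by
    intro p q p' q' h h'
    have := S.add_mem h h'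
    rw [el_add] at this
    simpa using this
  have hC : ∀ (a : K[X]) (p q : (K[X])[X]), el 0 p q ∈ S →
      el 0 (C a * p) (C a * q) ∈ S := by
    intro a
    induction a using Polynomial.induction_on with
    | C c => exact hc c
    | add a b ha hb =>
      intro p q h
      have := hadd _ _ _ _ (ha p q h) (hb p q h)
      simpa [add_mul] using this
    | monomial n c ih =>
      intro p q h
      have := hx _ _ (ih p q h)
      have e : ∀ t : (K[X])[X], xx K * (C (C c * X ^ n) * t) = C (C c * X ^ (n + 1)) * t := by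
        intro t
        simp only [xx, map_mul, map_pow]
        ring
      rwa [e, e] at this
  induction r using Polynomial.induction_on generalizing p q with
  | C c => exact hC c p q h
  | add a b ha hb =>
    have := hadd _ _ _ _ (ha p q h) (hb p q h)
    simpa [add_mul] using this
  | monomial n c ih =>
    have := hy _ _ (ih p q h)
    have e : ∀ t : (K[X])[X], yy K * (C c * X ^ n * t) = C c * X ^ (n + 1) * t := by
      intro t
      simp only [yy]
      ring
    rwa [e, e] at this

lemma adjoin_eq_top : Algebra.adjoin K ({el 0 1 0, el 0 0 1} : Set (alg K)) = ⊤ := by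
  rw [eq_top_iff]
  intro a _
  set S := Algebra.adjoin K ({el 0 1 0, el 0 0 1} : Set (alg K)) with hS
  have h1 : el 0 1 0 ∈ S := Algebra.subset_adjoin (by simp)
  have h2 : el 0 0 1 ∈ S := Algebra.subset_adjoin (by simp)
  obtain ⟨c, p, q, rfl⟩ := exists_el a
  have hp := mem_adjoin_aux S h1 h2 p 1 0 h1
  have hq := mem_adjoin_aux S h1 h2 q 0 1 h2
  have hc : el c 0 0 ∈ S := by
    rw [← algebraMap_eq_el]
    exact S.algebraMap_mem c
  have := S.add_mem hc (S.add_mem hp hq)
  rw [el_add, el_add] at this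
  simpa using this

lemma finiteType : Algebra.FiniteType K (alg K) := by
  classical
  refine ⟨⟨({el 0 1 0, el 0 0 1} : Finset (alg K)), ?_⟩⟩
  have := adjoin_eq_top (K := K)
  simpa using this

/-! ### The centre -/

lemma center_eq : Subalgebra.center K (alg K) = ⊥ := by
  rw [eq_bot_iff]
  intro a ha
  obtain ⟨c, p, q, rfl⟩ := exists_el a
  rw [Subalgebra.mem_center_iff] at ha
  have h1 := ha (el 0 1 0)
  have h2 := ha (el 0 0 1)
  rw [el_comm_iff] at h1 h2
  have hq : q = 0 := by simpa using h1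
  have hp : p = 0 := by simpa using h2.symm
  subst hp hq
  rw [← algebraMap_eq_el]
  exact Subalgebra.algebraMap_mem _ c

lemma notMem_center {c : K} {p q : (K[X])[X]} (h : el c p q ∉ Subalgebra.center K (alg K)) :
    p ≠ 0 ∨ q ≠ 0 := by
  by_contra hcon
  push Not at hcon
  obtain ⟨rfl, rfl⟩ := hcon
  apply h
  rw [← algebraMap_eq_el]
  exact Subalgebra.algebraMap_mem _ c

lemma mem_centralizer_iff' {c c' : K} {p q p' q' : (K[X])[X]} :
    el c' p' q' ∈ Subalgebra.centralizer K ({el c p q} : Set (alg K)) ↔ p * q' = p' * q := by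
  rw [Subalgebra.mem_centralizer_iff]
  simp only [Set.mem_singleton_iff, forall_eq]
  rw [el_comm_iff]

/-! ### Commutativity of the centralizers -/

lemma comm_of_mem {c : K} {p q : (K[X])[X]} (h : p ≠ 0 ∨ q ≠ 0) {a b : alg K}
    (ha : a ∈ Subalgebra.centralizer K ({el c p q} : Set (alg K)))
    (hb : b ∈ Subalgebra.centralizer K ({el c p q} : Set (alg K))) : a * b = b * a := by
  obtain ⟨c₁, p₁, q₁, rfl⟩ := exists_el a
  obtain ⟨c₂, p₂, q₂, rfl⟩ := exists_el b
  rw [mem_centralizer_iff'] at ha hb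
  rw [el_comm_iff]
  rcases h with h | h
  · apply mul_left_cancel₀ h
    linear_combination p₁ * hb - p₂ * ha
  · apply mul_left_cancel₀ h
    linear_combination q₁ * hb - q₂ * ha

/-! ### Non-Noetherianity -/

/-- If `(p₀, q₀)` is reduced, every vector parallel to it is a multiple. -/
lemma exists_mul_of_parallel {p₀ q₀ p' q' : (K[X])[X]} (hrel : IsRelPrime p₀ q₀)
    (h : p₀ * q' = p' * q₀) : ∃ r, p' = r * p₀ ∧ q' = r * q₀ := by
  by_cases hp : p₀ = 0
  · subst hp
    have hu : IsUnit q₀ := by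
      apply hrel
      · exact dvd_zero _
      · exact dvd_rfl
    obtain ⟨u, rfl⟩ := hu
    have hp' : p' = 0 := by
      have : p' * (u : (K[X])[X]) = 0 := by rw [← h, zero_mul]
      rcases mul_eq_zero.1 this with h1 | h1
      · exact h1
      · exact absurd h1 u.ne_zero
    subst hp'
    exact ⟨q' * (↑u⁻¹ : (K[X])[X]), by simp, by simp [mul_assoc]⟩
  · have hdvd : p₀ ∣ p' * q₀ := ⟨q', h.symm⟩
    have hdvd' : p₀ ∣ p' := hrel.dvd_of_dvd_mul_right hdvd
    obtain ⟨r, rfl⟩ := hdvd'
    refine ⟨r, mul_comm _ _, ?_⟩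
    apply mul_left_cancel₀ hp
    rw [h]
    ring

lemma not_both (f p₀ q₀ : (K[X])[X]) (hf : f = pi2 p₀ q₀) (g₁ g₂ : K[X]) (h1 : g₁ ≠ 0)
    (h2 : g₂ ≠ 0) (hd1 : f ∣ C g₁) (hd2 : f ∣ g₂.map C) : False := by
  have hdeg : f.natDegree = 0 := by
    have := Polynomial.natDegree_le_of_dvd hd1 (by simpa using h1)
    simpa using this
  have hfC : f = C (f.coeff 0) := Polynomial.eq_C_of_natDegree_eq_zero hdeg
  rw [hfC, Polynomial.C_dvd_iff_dvd_coeff] at hd2
  have hd3 := hd2 g₂.natDegree
  rw [Polynomial.coeff_map] at hd3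
  have hunit : IsUnit (C (g₂.coeff g₂.natDegree) : K[X]) := by
    rw [Polynomial.isUnit_C]
    apply IsUnit.mk0
    simpa using h2
  have hu : IsUnit (f.coeff 0) := isUnit_of_dvd_unit hd3 hunit
  obtain ⟨r, hr, hr'⟩ := Polynomial.isUnit_iff.1 hu
  have e1 : (f.eval 0).eval 0 = 0 := by
    rw [hf]
    simp [pi2, xx, yy]
  rw [hfC, Polynomial.eval_C, ← hr', Polynomial.eval_C] at e1
  exact hr.ne_zero e1

section noeth

variable {c : K} {p q p₀ q₀ d : (K[X])[X]}

/-- The left ideal attached to a `K`-subspace `V` of `K[x][y]`. -/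
noncomputable def idl (hrel : IsRelPrime p₀ q₀) (hd : d ≠ 0) (hp : d * p₀ = p) (hq : d * q₀ = q)
    (V : Submodule K (K[X])[X]) :
    Submodule (Subalgebra.centralizer K ({el c p q} : Set (alg K)))
      (Subalgebra.centralizer K ({el c p q} : Set (alg K))) where
  carrier := {z | ∃ r : (K[X])[X], (z : alg K) = el 0 (r * p₀) (r * q₀) ∧
    ∃ v ∈ V, ∃ s, r = v + pi2 p₀ q₀ * s}
  zero_mem' := by
    refine ⟨0, ?_, 0, V.zero_mem, 0, by simp⟩
    have := algebraMap_eq_el (K := K) 0
    simpa using this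
  add_mem' := by
    rintro z w ⟨r, hr, v, hv, s, hs⟩ ⟨r', hr', v', hv', s', hs'⟩
    refine ⟨r + r', ?_, v + v', V.add_mem hv hv', s + s', ?_⟩
    · rw [Subalgebra.coe_add, hr, hr', el_add]
      simp [add_mul]
    · rw [hs, hs']
      ring
  smul_mem' := by
    rintro ⟨z, hz⟩ w ⟨r, hr, v, hv, s, hs⟩
    obtain ⟨c', p', q', rfl⟩ := exists_el z
    rw [mem_centralizer_iff'] at hz
    have hpar : p₀ * q' = p' * q₀ := by
      apply mul_left_cancel₀ hd
      rw [← hp, ← hq] at hz
      linear_combination hz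
    obtain ⟨t, rfl, rfl⟩ := exists_mul_of_parallel hrel hpar
    refine ⟨C (C c') * r + t * pi2 p₀ q₀ * r, ?_, C (C c') * v, ?_,
      C (C c') * s + t * r, ?_⟩
    · rw [smul_eq_mul, Subalgebra.coe_mul, hr]
      change el c' (t * p₀) (t * q₀) * _ = _
      rw [el_mul]
      congr 1
      · simp
      · simp only [pi2]
        simp
        ring
      · simp only [pi2]
        simp
        ring
    · have : C (C c') * v = c' • v := by
        rw [Algebra.smul_def]
        rfl
      rw [this]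
      exact V.smul_mem _ hv
    · rw [hs]
      ring

lemma idl_mono (hrel : IsRelPrime p₀ q₀) (hd : d ≠ 0) (hp : d * p₀ = p) (hq : d * q₀ = q)
    {V W : Submodule K (K[X])[X]} (h : V ≤ W) :
    idl (c := c) hrel hd hp hq V ≤ idl hrel hd hp hq W := by
  rintro z ⟨r, hr, v, hv, s, hs⟩
  exact ⟨r, hr, v, h hv, s, hs⟩

lemma exists_dvd (hrel : IsRelPrime p₀ q₀) (hd : d ≠ 0) (hp : d * p₀ = p) (hq : d * q₀ = q)
    (hN : IsNoetherianRing (Subalgebra.centralizer K ({el c p q} : Set (alg K))))
    (φ : K[X] →ₗ[K] (K[X])[X]) : ∃ g : K[X], g ≠ 0 ∧ pi2 p₀ q₀ ∣ φ g := by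
  have h0 : p₀ ≠ 0 ∨ q₀ ≠ 0 := by
    by_contra hcon
    push Not at hcon
    obtain ⟨rfl, rfl⟩ := hcon
    have : IsUnit (0 : (K[X])[X]) := hrel dvd_rfl dvd_rfl
    exact not_isUnit_zero this
  let F : ℕ →o Submodule (Subalgebra.centralizer K ({el c p q} : Set (alg K)))
      (Subalgebra.centralizer K ({el c p q} : Set (alg K))) :=
    { toFun := fun n => idl hrel hd hp hq ((Polynomial.degreeLT K n).map φ)
      monotone' := by
        intro m n hmn
        exact idl_mono hrel hd hp hq (Submodule.map_mono (Polynomial.degreeLT_mono hmn)) }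
  obtain ⟨n, hn⟩ := (monotone_stabilizes_iff_noetherian.2 hN) F
  have h1 := hn (n + 1) (Nat.le_succ n)
  have hmem : el 0 (φ (X ^ n) * p₀) (φ (X ^ n) * q₀) ∈
      Subalgebra.centralizer K ({el c p q} : Set (alg K)) := by
    rw [mem_centralizer_iff', ← hp, ← hq]
    ring
  have h2 : (⟨_, hmem⟩ : Subalgebra.centralizer K ({el c p q} : Set (alg K))) ∈ F (n + 1) := by
    refine ⟨φ (X ^ n), rfl, φ (X ^ n), ?_, 0, by simp⟩
    refine Submodule.mem_map_of_mem ?_
    rw [Polynomial.mem_degreeLT]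
    rw [Polynomial.degree_X_pow]
    exact_mod_cast Nat.lt_succ_self n
  rw [← h1] at h2
  obtain ⟨r, hr, v, hv, s, hs⟩ := h2
  obtain ⟨g, hg, rfl⟩ := hv
  have hr' : r = φ (X ^ n) := by
    obtain ⟨-, e1, e2⟩ := el_inj hr
    rcases h0 with h | h
    · exact (mul_right_cancel₀ h e1).symm
    · exact (mul_right_cancel₀ h e2).symm
  refine ⟨X ^ n - g, ?_, ⟨s, ?_⟩⟩
  · intro hcon
    have : g = X ^ n := (sub_eq_zero.1 hcon).symm
    subst this
    have hg' := Polynomial.mem_degreeLT.1 hg
    rw [Polynomial.degree_X_pow] at hg'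
    exact lt_irrefl _ hg'
  · rw [map_sub, ← hr', hs]
    ring

end noeth

lemma not_noetherian {c : K} {p q : (K[X])[X]} (h : p ≠ 0 ∨ q ≠ 0) :
    ¬ IsNoetherianRing (Subalgebra.centralizer K ({el c p q} : Set (alg K))) := by
  intro hN
  obtain ⟨p₀, q₀, d, hd, hrel, hp, hq⟩ : ∃ p₀ q₀ d : (K[X])[X], d ≠ 0 ∧ IsRelPrime p₀ q₀ ∧
      d * p₀ = p ∧ d * q₀ = q := by
    rcases h with h | h
    · obtain ⟨a, b, e, h1, h2, h3⟩ := UniqueFactorizationMonoid.exists_reduced_factors p h q
      refine ⟨a, b, e, ?_, h1, h2, h3⟩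
      rintro rfl
      apply h
      rw [← h2, zero_mul]
    · obtain ⟨a, b, e, h1, h2, h3⟩ := UniqueFactorizationMonoid.exists_reduced_factors q h p
      refine ⟨b, a, e, ?_, h1.symm, h3, h2⟩
      rintro rfl
      apply h
      rw [← h2, zero_mul]
  obtain ⟨g₁, h1, hd1⟩ := exists_dvd hrel hd hp hq hN
    (Polynomial.CAlgHom : K[X] →ₐ[K] (K[X])[X]).toLinearMap
  obtain ⟨g₂, h2, hd2⟩ := exists_dvd hrel hd hp hq hN
    (Polynomial.mapAlgHom (Algebra.ofId K K[X])).toLinearMap
  exact not_both _ p₀ q₀ rfl g₁ g₂ h1 h2 (by simpa using hd1) (by simpa using hd2)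

end

/-- **Disproof.** For every field `K` there is a finitely generated central `K`-algebra
`A ≠ K`, all of whose proper centralizers are commutative, such that no proper centralizer
of `A` is a Noetherian ring. -/
theorem result (K : Type u) [Field K] :
    ∃ (A : Type u) (_ : Ring A) (_ : Algebra K A),
      Algebra.FiniteType K A ∧
      Subalgebra.center K A = ⊥ ∧
      (⊥ : Subalgebra K A) ≠ ⊤ ∧
      ∀ a : A, a ∉ Subalgebra.center K A →
        (∀ b ∈ Subalgebra.centralizer K ({a} : Set A),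
          ∀ c ∈ Subalgebra.centralizer K ({a} : Set A), b * c = c * b) ∧
        ¬ IsNoetherianRing (Subalgebra.centralizer K ({a} : Set A)) := by
  refine ⟨alg K, inferInstance, inferInstance, finiteType, center_eq, ?_, ?_⟩
  · intro h
    have h1 : (el 0 1 0 : alg K) ∈ (⊥ : Subalgebra K (alg K)) := by
      rw [h]
      trivial
    obtain ⟨c, hc⟩ := Algebra.mem_bot.1 h1
    rw [algebraMap_eq_el] at hc
    obtain ⟨-, h2, -⟩ := el_inj hc
    exact zero_ne_one h2
  · intro a ha
    obtain ⟨c, p, q, rfl⟩ := exists_el a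
    have h := notMem_center ha
    exact ⟨fun b hb c' hc' => comm_of_mem h hb hc', not_noetherian h⟩

end Pool.Agent.Results.MP_dbb1e7_al.NoNoetherianCentralizer
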